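import Pool.Agent.Lib_helper26.XS.Defs
import Pool.Agent.Lib_helper26.XSF.RPA
import Pool.Agent.Lib_helper26.XSF.RPZ
import Pool.Agent.Lib_helper26.XSF.LLB
import Pool.Agent.Lib_helper26.XSF.ZLB
import Pool.Agent.Lib_helper26.XSF.PTW
import Pool.Agent.Lib_helper26.XSF.SHB
import Pool.Agent.Lib_helper26.XSF.LSU
import Pool.Agent.Lib_helper26.XSF.LFI
import Pool.Agent.Lib_helper26.XSF.DFA
import Pool.Agent.Lib_helper92.HCF.IDN
import Pool.Agent.Lib_helper90.PNT.WienerIkehara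
import Pool.Agent.Lib_helper26.XSF.DA0
import Pool.Agent.Lib_helper26.XSF.DA3
import Pool.Agent.Lib_helper26.XSF.UPP

/-!
# XSB: zero-free half-planes, prime multiples and the formula for every modulus

* `zf_to_pm`: no zeros with real part greater than `(1 + κ) / 2`, `κ ≥ 1/2`, gives the bound for the
  variance in mean over the multiples `q p`, `p` prime, of every fixed `q`;
* `pm_to_one`: this gives one modulus;
* `every_to_abs`: the formula for every modulus gives the formula in absolute mean.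
-/

set_option autoImplicit false

namespace Pool.Agent.XS

open Finset Complex MeasureTheory Pool.Agent.Var35 Pool.Agent.Var73 Pool.Agent.HC Pool.Agent.MF
open scoped ArithmeticFunction ArithmeticFunction.Moebius

/-! ## The pointwise energy -/

theorem pt_gauss {δ lam : ℝ} (hδ : 0 ≤ δ) (hδ1 : δ ≤ 1) (hl : 0 < lam) (hl1 : lam ≤ 1) (t : ℝ) :
    (1 + |t|) ^ (2 * δ) * Real.exp (-(lam * t ^ 2)) ≤ 2 * lam ^ (-δ) := by
  have h0 : 0 ≤ |t| := abs_nonneg t
  have h1 : (1 + |t|) ^ (2 * δ) ≤ (2 * (1 + t ^ 2)) ^ δ := by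
    rw [Real.rpow_mul (by positivity)]
    refine Real.rpow_le_rpow (by positivity) ?_ hδ
    rw [Real.rpow_two, ← sq_abs t]
    nlinarith [sq_nonneg (|t| - 1)]
  have h2 : lam ^ δ * (2 * (1 + t ^ 2)) ^ δ ≤ 2 * Real.exp (lam * t ^ 2) := by
    rw [← Real.mul_rpow hl.le (by positivity)]
    have h3 : lam * (2 * (1 + t ^ 2)) ≤ 2 * Real.exp (lam * t ^ 2) := by
      have := Real.add_one_le_exp (lam * t ^ 2)
      nlinarith
    have h4 : (1 : ℝ) ≤ 2 * Real.exp (lam * t ^ 2) := by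
      have := Real.one_le_exp (show 0 ≤ lam * t ^ 2 by positivity)
      linarith
    calc (lam * (2 * (1 + t ^ 2))) ^ δ ≤ (2 * Real.exp (lam * t ^ 2)) ^ δ :=
          Real.rpow_le_rpow (by positivity) h3 hδ
      _ ≤ (2 * Real.exp (lam * t ^ 2)) ^ (1 : ℝ) := Real.rpow_le_rpow_of_exponent_le h4 hδ1
      _ = _ := Real.rpow_one _
  have h5 : 0 < lam ^ δ := Real.rpow_pos_of_pos hl δ
  have h6 : lam ^ (-δ) = (lam ^ δ)⁻¹ := Real.rpow_neg hl.le δ
  rw [h6, Real.exp_neg]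
  have h7 : 0 < Real.exp (lam * t ^ 2) := Real.exp_pos _
  calc (1 + |t|) ^ (2 * δ) * (Real.exp (lam * t ^ 2))⁻¹
      ≤ (2 * (1 + t ^ 2)) ^ δ * (Real.exp (lam * t ^ 2))⁻¹ := by gcongr
    _ = (lam ^ δ * (2 * (1 + t ^ 2)) ^ δ) * ((lam ^ δ)⁻¹ * (Real.exp (lam * t ^ 2))⁻¹) := by
        field_simp
    _ ≤ (2 * Real.exp (lam * t ^ 2)) * ((lam ^ δ)⁻¹ * (Real.exp (lam * t ^ 2))⁻¹) := by gcongr
    _ = 2 * (lam ^ δ)⁻¹ := by field_simp

theorem pt_q2 {δ : ℝ} (hδ : 0 < δ) (hδ1 : δ ≤ 1) {A : ℝ} (hA : 0 ≤ A) : ∃ C : ℝ, 1 ≤ C ∧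
    ∀ h : ℝ → ℝ, Continuous h → (∀ t, 0 ≤ h t) → (∀ t, h t ≤ A * (1 + |t|) ^ δ) →
    ∀ lam : ℝ, 0 < lam → lam ≤ 1 → Q2 lam h ≤ C * lam ^ (-(2 * δ)) := by
  have hint : Integrable (fun t : ℝ => (1 + |t|) ^ (-(1 + δ))) := by
    have h0 : ((Module.finrank ℝ ℝ : ℕ) : ℝ) < 1 + δ := by
      rw [Module.finrank_self]
      push_cast
      linarith
    exact integrable_one_add_norm h0
  set J : ℝ := ∫ t : ℝ, (1 + |t|) ^ (-(1 + δ)) with hJ
  have hJ0 : 0 ≤ J := integral_nonneg fun t => by positivity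
  refine ⟨(A * 2 * J) ^ 2 + 1, by nlinarith [sq_nonneg (A * 2 * J)], ?_⟩
  intro h hc h0 hh lam hl hl1
  have hl2 : 0 < lam ^ (-δ) := Real.rpow_pos_of_pos hl _
  have key : ∫ t : ℝ, h t / (1 + |t|) * Real.exp (-(lam * t ^ 2)) ≤ A * 2 * J * lam ^ (-δ) := by
    calc ∫ t : ℝ, h t / (1 + |t|) * Real.exp (-(lam * t ^ 2))
        ≤ ∫ t : ℝ, (A * 2 * lam ^ (-δ)) * (1 + |t|) ^ (-(1 + δ)) := by
          refine integral_mono_of_nonneg (Filter.Eventually.of_forall fun t => ?_)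
            (hint.const_mul _) (Filter.Eventually.of_forall fun t => ?_)
          · have := h0 t
            show 0 ≤ h t / (1 + |t|) * Real.exp (-(lam * t ^ 2))
            positivity
          · show h t / (1 + |t|) * Real.exp (-(lam * t ^ 2)) ≤
              (A * 2 * lam ^ (-δ)) * (1 + |t|) ^ (-(1 + δ))
            have h1 : 0 < 1 + |t| := by positivity
            have h2 : (1 + |t|) ^ δ / (1 + |t|) = (1 + |t|) ^ (2 * δ) * (1 + |t|) ^ (-(1 + δ)) := by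
              rw [← Real.rpow_add h1, div_eq_mul_inv, ← Real.rpow_neg_one (1 + |t|),
                ← Real.rpow_add h1]
              congr 1
              ring
            have h3 := pt_gauss hδ.le hδ1 hl hl1 t
            have h4 : 0 < (1 + |t|) ^ (-(1 + δ)) := Real.rpow_pos_of_pos h1 _
            calc h t / (1 + |t|) * Real.exp (-(lam * t ^ 2))
                ≤ (A * (1 + |t|) ^ δ) / (1 + |t|) * Real.exp (-(lam * t ^ 2)) := by
                  gcongr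
                  exact hh t
              _ = A * ((1 + |t|) ^ δ / (1 + |t|)) * Real.exp (-(lam * t ^ 2)) := by ring
              _ = A * ((1 + |t|) ^ (2 * δ) * Real.exp (-(lam * t ^ 2))) *
                    (1 + |t|) ^ (-(1 + δ)) := by
                  rw [h2]
                  ring
              _ ≤ A * (2 * lam ^ (-δ)) * (1 + |t|) ^ (-(1 + δ)) := by gcongr
              _ = _ := by ring
      _ = A * 2 * J * lam ^ (-δ) := by
          rw [integral_const_mul]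
          ring
  have key0 : 0 ≤ ∫ t : ℝ, h t / (1 + |t|) * Real.exp (-(lam * t ^ 2)) :=
    integral_nonneg fun t => by
      have := h0 t
      positivity
  unfold Q2
  calc (∫ t : ℝ, h t / (1 + |t|) * Real.exp (-(lam * t ^ 2))) ^ 2
      ≤ (A * 2 * J * lam ^ (-δ)) ^ 2 := pow_le_pow_left₀ key0 key 2
    _ = (A * 2 * J) ^ 2 * lam ^ (-(2 * δ)) := by
        rw [mul_pow]
        congr 1
        rw [← Real.rpow_natCast (lam ^ (-δ)) 2, ← Real.rpow_mul hl.le]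
        congr 1
        push_cast
        ring
    _ ≤ _ := by
        have : 0 < lam ^ (-(2 * δ)) := Real.rpow_pos_of_pos hl _
        nlinarith

/-! ## The case without a mollifier -/

theorem pt_cI (n : ℕ) : cI 0 n = 0 := by
  unfold cI
  rw [Finset.filter_false_of_mem, sum_empty]
  intro d hd h
  have := Nat.pos_of_mem_divisors hd
  omega

theorem pt_E2 {r : ℕ} (χ : DirichletCharacter ℂ r) : E2 0 χ = E0 χ := by
  classical
  funext x
  have : EI 0 χ x = 0 := by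
    unfold EI
    split_ifs
    · rfl
    · refine sum_eq_zero fun n _ => ?_
      rw [pt_cI]
      simp
  unfold E2
  rw [this, sub_zero]

theorem pt_MM {r : ℕ} (χ : DirichletCharacter ℂ r) (s : ℂ) : MM 0 χ s = 0 := by
  unfold MM
  simp

/-- the growth on a vertical line -/
theorem pt_nH {θ c δ : ℝ} (hθ : 1 / 2 ≤ θ) (h : ZF θ) (hc : θ < c) (hc1 : c < 1) (hδ : 0 < δ)
    {r : ℕ} (hr : 1 ≤ r) (χ : DirichletCharacter ℂ r) :
    ∃ A : ℝ, 0 ≤ A ∧ ∀ t : ℝ, nH (KK 0 χ) c t ≤ A * (1 + |t|) ^ δ := by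
  classical
  have : NeZero r := ⟨by omega⟩
  have hre : ∀ t : ℝ, ((c : ℂ) + t * I).re = c := fun t => by simp
  have him : ∀ t : ℝ, ((c : ℂ) + t * I).im = t := fun t => by simp
  by_cases h1 : χ = 1
  · obtain ⟨C, hC, hb⟩ := ldlog_zeta_pr hθ h hc
    refine ⟨C * (2 ^ δ / δ) + 1, by positivity, fun t => ?_⟩
    have h2 := hb (c + t * I) (by rw [hre]) (by rw [hre]; linarith)
    rw [him] at h2
    have h3 : KK 0 χ (c + t * I) = -logDeriv riemannZeta₁ (c + t * I) - 1 := by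
      unfold KK
      rw [if_pos h1]
    have h4 : Real.log (|t| + 2) ≤ (2 ^ δ / δ) * (1 + |t|) ^ δ := by
      calc Real.log (|t| + 2) ≤ (|t| + 2) ^ δ / δ := Real.log_le_rpow_div (by positivity) hδ
        _ ≤ (2 * (1 + |t|)) ^ δ / δ := by
            gcongr
            have := abs_nonneg t
            linarith
        _ = _ := by
            rw [Real.mul_rpow (by norm_num) (by positivity)]
            ring
    have h5 : (1 : ℝ) ≤ (1 + |t|) ^ δ :=
      Real.one_le_rpow (by have := abs_nonneg t; linarith) hδ.le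
    unfold nH
    rw [h3]
    calc ‖-logDeriv riemannZeta₁ (c + t * I) - 1‖ ≤
          ‖logDeriv riemannZeta₁ (c + t * I)‖ + 1 := by
            refine (norm_sub_le _ _).trans ?_
            rw [norm_neg, norm_one]
      _ ≤ C * ((2 ^ δ / δ) * (1 + |t|) ^ δ) + (1 + |t|) ^ δ := by
          refine add_le_add (h2.trans ?_) h5
          gcongr
      _ = _ := by ring
  · obtain ⟨C, hC, hb⟩ := ldlog_pr hθ h hc
    refine ⟨C * ((r * 2) ^ δ / δ), by positivity, fun t => ?_⟩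
    have h2 := hb r χ h1 (c + t * I) (by rw [hre]) (by rw [hre]; linarith)
    rw [him] at h2
    have h3 : KK 0 χ (c + t * I) = -logDeriv (GA.LF χ) (c + t * I) := by
      unfold KK
      rw [if_neg h1, pt_MM, mul_zero, sub_zero, mul_one]
    have hr1 : (1 : ℝ) ≤ r := by exact_mod_cast hr
    have h4 : Real.log (r * (|t| + 2)) ≤ ((r * 2) ^ δ / δ) * (1 + |t|) ^ δ := by
      calc Real.log (r * (|t| + 2)) ≤ (r * (|t| + 2)) ^ δ / δ :=
            Real.log_le_rpow_div (by positivity) hδ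
        _ ≤ ((r * 2) * (1 + |t|)) ^ δ / δ := by
            apply div_le_div_of_nonneg_right _ hδ.le
            refine Real.rpow_le_rpow (by positivity) ?_ hδ.le
            have := abs_nonneg t
            nlinarith
        _ = _ := by
            rw [Real.mul_rpow (by positivity) (by positivity)]
            ring
    unfold nH
    rw [h3, norm_neg]
    refine h2.trans ?_
    calc C * Real.log (r * (|t| + 2)) ≤ C * (((r * 2) ^ δ / δ) * (1 + |t|) ^ δ) := by gcongr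
      _ = _ := by ring

theorem pt_rep {θ c : ℝ} (hθ : 1 / 2 ≤ θ) (h : ZF θ) (hc : θ < c) (hc1 : c < 1) (z : ℕ) {r : ℕ}
    (hr : 1 ≤ r) (χ : DirichletCharacter ℂ r) (hχ : χ ∈ Pr r) : Rep (E2 z χ) (KK z χ) c := by
  rcases Nat.lt_or_ge 1 r with h1 | h1
  · exact rep_chi_pr hθ h hc hc1 r z h1 χ hχ
  · obtain rfl : r = 1 := le_antisymm h1 hr
    exact rep_one_pr hθ h hc hc1 z χ

/-- **The pointwise bound.** -/
theorem pt_bound {θ c : ℝ} (hθ : 3 / 4 ≤ θ) (h : ZF θ) (hc : θ < c) (hc1 : c < 1) {r : ℕ}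
    (hr : 1 ≤ r) (χ : DirichletCharacter ℂ r) (hχ : χ ∈ Pr r) :
    ∃ C : ℝ, 1 ≤ C ∧ ∀ X : ℝ, 1 ≤ X → ‖EE χ X‖ ^ 2 ≤ C * X ^ (2 * c) := by
  classical
  set b : ℝ := (θ + c) / 2 with hb
  have hb1 : θ < b := by rw [hb]; linarith
  have hb2 : b < c := by rw [hb]; linarith
  set δ : ℝ := (c - b) / 2 with hδ
  have hδ0 : 0 < δ := by rw [hδ]; linarith
  have hδ1 : δ ≤ 1 := by rw [hδ]; linarith
  have hR : Rep (E2 0 χ) (KK 0 χ) b := pt_rep (by linarith) h hb1 (by linarith) 0 hr χ hχ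
  rw [pt_E2] at hR
  obtain ⟨A, hA0, hA⟩ := pt_nH (by linarith : (1 / 2 : ℝ) ≤ θ) h hb1 (by linarith) hδ0 hr χ
  obtain ⟨C1, hC1, hq⟩ := pt_q2 hδ0 hδ1 hA0
  obtain ⟨C2, hC2, hs⟩ := short_pr
  obtain ⟨C3, hC3⟩ : ∃ C3 : ℝ, C3 = (3 ^ c / c) ^ 2 := ⟨_, rfl⟩
  have hc0 : 0 < c := by linarith
  refine ⟨8 * C1 + 2 * (C2 * C3 * ((r : ℝ) ^ 2 + 2) * 2), ?_, fun X hX => ?_⟩
  · have : 0 ≤ C3 := by rw [hC3]; positivity
    have : 0 ≤ 2 * (C2 * C3 * ((r : ℝ) ^ 2 + 2) * 2) := by positivity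
    linarith
  have hX0 : 0 < X := by linarith
  obtain ⟨lam, hlam⟩ : ∃ lam : ℝ, lam = X ^ (-2 : ℝ) := ⟨_, rfl⟩
  have hl : 0 < lam := by rw [hlam]; exact Real.rpow_pos_of_pos hX0 _
  have hl1 : lam ≤ 1 := by
    rw [hlam]
    exact Real.rpow_le_one_of_one_le_of_nonpos hX (by norm_num)
  have hsq : Real.sqrt lam = X⁻¹ := by
    rw [hlam, Real.sqrt_eq_rpow, ← Real.rpow_mul hX0.le, ← Real.rpow_neg_one]
    norm_num
  -- the smooth part
  have p1 : ‖sm lam (E0 χ) X‖ ^ 2 ≤ 4 * C1 * X ^ (2 * c) := by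
    have q1 := sm_ptw_pr hR (by linarith) (by linarith) hl hl1 hX0
    have q2 := hq (nH (KK 0 χ) b) (ptw_cont hR (by linarith)) (fun t => norm_nonneg _) hA lam hl hl1
    have q3 : lam ^ (-(2 * δ)) = X ^ (4 * δ) := by
      rw [hlam, ← Real.rpow_mul hX0.le]
      congr 1
      ring
    rw [q3] at q2
    calc ‖sm lam (E0 χ) X‖ ^ 2 ≤ 4 * X ^ (2 * b) * Q2 lam (nH (KK 0 χ) b) := q1
      _ ≤ 4 * X ^ (2 * b) * (C1 * X ^ (4 * δ)) := by gcongr
      _ = 4 * C1 * (X ^ (2 * b) * X ^ (4 * δ)) := by ring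
      _ = 4 * C1 * X ^ (2 * c) := by
          rw [← Real.rpow_add hX0]
          congr 2
          rw [hδ]
          ring
  -- the difference
  have p2 : ‖EE χ X - sm lam (E0 χ) X‖ ^ 2 ≤ C2 * C3 * ((r : ℝ) ^ 2 + 2) * 2 * X ^ (2 * c) := by
    have q1 := hs r X lam hr hX hl hl1
    have q2 : ‖EE χ X - sm lam (E0 χ) X‖ ^ 2 ≤
        SP r (fun r χ => ‖EE χ X - sm lam (E0 χ) X‖ ^ 2) := by
      unfold SP
      refine le_trans ?_ (Finset.single_le_sum (f := fun r => ∑ χ ∈ Pr r,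
        ‖EE χ X - sm lam (E0 χ) X‖ ^ 2) (fun i _ => sum_nonneg fun _ _ => by positivity)
        (Finset.mem_Ico.2 ⟨le_refl r, by omega⟩))
      exact Finset.single_le_sum (f := fun χ : DirichletCharacter ℂ r =>
        ‖EE χ X - sm lam (E0 χ) X‖ ^ 2) (fun _ _ => by positivity) hχ
    have q3 : X * Real.sqrt lam = 1 := by
      rw [hsq]
      field_simp
    rw [q3] at q1
    have q4 : Real.log (X + 2) ^ 2 ≤ C3 * X ^ (2 * c) := by
      have q5 : Real.log (X + 2) ≤ 3 ^ c / c * X ^ c := by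
        calc Real.log (X + 2) ≤ (X + 2) ^ c / c := Real.log_le_rpow_div (by linarith) hc0
          _ ≤ (3 * X) ^ c / c := by
              apply div_le_div_of_nonneg_right _ hc0.le
              exact Real.rpow_le_rpow (by linarith) (by linarith) hc0.le
          _ = 3 ^ c / c * X ^ c := by
              rw [Real.mul_rpow (by norm_num) (by linarith)]
              ring
      have q6 : 0 ≤ Real.log (X + 2) := Real.log_nonneg (by linarith)
      calc Real.log (X + 2) ^ 2 ≤ (3 ^ c / c * X ^ c) ^ 2 := pow_le_pow_left₀ q6 q5 2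
        _ = C3 * X ^ (2 * c) := by
            rw [mul_pow, hC3]
            congr 1
            rw [← Real.rpow_natCast (X ^ c) 2, ← Real.rpow_mul hX0.le]
            congr 1
            push_cast
            ring
    calc ‖EE χ X - sm lam (E0 χ) X‖ ^ 2 ≤ _ := q2.trans q1
      _ ≤ C2 * (C3 * X ^ (2 * c)) * ((r : ℝ) ^ 2 + 1 + 1) * (1 + 1) := by gcongr
      _ = _ := by ring
  have p3 : ‖EE χ X‖ ^ 2 ≤ 2 * ‖sm lam (E0 χ) X‖ ^ 2 + 2 * ‖EE χ X - sm lam (E0 χ) X‖ ^ 2 := by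
    have e1 : EE χ X = sm lam (E0 χ) X + (EE χ X - sm lam (E0 χ) X) := by ring
    have e2 : ‖EE χ X‖ ≤ ‖sm lam (E0 χ) X‖ + ‖EE χ X - sm lam (E0 χ) X‖ := by
      conv_lhs => rw [e1]
      exact norm_add_le _ _
    have e3 : ‖EE χ X‖ ^ 2 ≤ (‖sm lam (E0 χ) X‖ + ‖EE χ X - sm lam (E0 χ) X‖) ^ 2 :=
      pow_le_pow_left₀ (norm_nonneg _) e2 2
    nlinarith [sq_nonneg (‖sm lam (E0 χ) X‖ - ‖EE χ X - sm lam (E0 χ) X‖)]
  calc ‖EE χ X‖ ^ 2 ≤ _ := p3
    _ ≤ 2 * (4 * C1 * X ^ (2 * c)) + 2 * (C2 * C3 * ((r : ℝ) ^ 2 + 2) * 2 * X ^ (2 * c)) := by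
        linarith
    _ = _ := by ring

/-- the variance in mean over the multiples `q p`, `p` a prime in `(P, 2P]`, of every fixed `q` -/
def PrimeMultiples (κ : ℝ) : Prop :=
  ∀ ε : ℝ, 0 < ε → ∀ q : ℕ, 1 ≤ q → ∃ C : ℝ, ∀ (X : ℝ) (P : ℕ), C ≤ X → X ^ (κ + ε) ≤ (P : ℝ) →
    C * (P : ℝ) ≤ X →
    ∑ p ∈ (Ioc P (2 * P)).filter Nat.Prime, GX X (q * p) ≤ C * X * P * Real.log X

theorem pm_GX {X : ℝ} (hX : 3 ≤ X) {Q : ℕ} (hQ : 1 ≤ Q) (hQX : (Q : ℝ) ≤ X) :
    GX X Q ≤ (2 / (Nat.totient Q : ℝ)) * ∑ r ∈ Q.divisors, ∑ ψ ∈ Pr r, ‖EE ψ X‖ ^ 2 +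
      8 * Real.log X ^ 4 := by
  classical
  have : NeZero Q := ⟨by omega⟩
  have e1 : GX X Q = LX X Q Q := by
    rw [idn_total]
    unfold LX
    congr 1
    refine sum_congr rfl fun χ _ => ?_
    have hcond : (χ.conductor : ℝ) ≤ (Q : ℝ) := by
      exact_mod_cast Nat.le_of_dvd (by omega) χ.conductor_dvd_level
    rw [if_pos hcond]
    congr!
  rw [e1]
  refine (lsu_LX X hX Q Q hQ hQX).trans (le_of_eq ?_)
  congr 1
  rw [← sum_filter, mul_sum]
  refine sum_congr ?_ fun r _ => by ring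
  ext r
  rw [mem_filter, mem_Icc, Nat.mem_divisors, Nat.floor_natCast]
  constructor
  · rintro ⟨-, h⟩
    exact ⟨h, by omega⟩
  · rintro ⟨h, -⟩
    exact ⟨⟨Nat.pos_of_dvd_of_pos h (by omega), Nat.le_of_dvd (by omega) h⟩, h⟩

/-- the characters whose conductor divides the fixed `q` -/
theorem pm_fix {θ c : ℝ} (hθ : 3 / 4 ≤ θ) (h : ZF θ) (hc : θ < c) (hc1 : c < 1) (q : ℕ) :
    ∃ C : ℝ, 1 ≤ C ∧ ∀ X : ℝ, 1 ≤ X →
      ∑ r ∈ q.divisors, ∑ ψ ∈ Pr r, ‖EE ψ X‖ ^ 2 ≤ C * X ^ (2 * c) := by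
  have h1 : ∀ (r : ℕ) (χ : DirichletCharacter ℂ r), ∃ C : ℝ, 0 ≤ C ∧ (1 ≤ r → χ ∈ Pr r →
      ∀ X : ℝ, 1 ≤ X → ‖EE χ X‖ ^ 2 ≤ C * X ^ (2 * c)) := by
    intro r χ
    by_cases hr : 1 ≤ r ∧ χ ∈ Pr r
    · obtain ⟨C, hC, hb⟩ := pt_bound hθ h hc hc1 hr.1 χ hr.2
      exact ⟨C, by linarith, fun _ _ => hb⟩
    · exact ⟨0, le_rfl, fun h1 h2 => absurd ⟨h1, h2⟩ hr⟩
  choose F hF0 hF using h1
  refine ⟨∑ r ∈ q.divisors, ∑ ψ ∈ Pr r, F r ψ + 1, ?_, fun X hX => ?_⟩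
  · have : 0 ≤ ∑ r ∈ q.divisors, ∑ ψ ∈ Pr r, F r ψ :=
      sum_nonneg fun r _ => sum_nonneg fun ψ _ => hF0 r ψ
    linarith
  · have h0 : 0 ≤ X ^ (2 * c) := by positivity
    calc ∑ r ∈ q.divisors, ∑ ψ ∈ Pr r, ‖EE ψ X‖ ^ 2
        ≤ ∑ r ∈ q.divisors, ∑ ψ ∈ Pr r, F r ψ * X ^ (2 * c) := by
          refine sum_le_sum fun r hr => sum_le_sum fun ψ hψ => ?_
          exact hF r ψ (Nat.pos_of_mem_divisors hr) hψ X hX
      _ = (∑ r ∈ q.divisors, ∑ ψ ∈ Pr r, F r ψ) * X ^ (2 * c) := by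
          rw [sum_mul]
          exact sum_congr rfl fun r _ => (sum_mul _ _ _).symm
      _ ≤ _ := by nlinarith

/-- the primitive characters of modulus at most `D`: the large sieve -/
theorem pm_large {X : ℝ} (hX : 3 ≤ X) (S : Finset ℕ) {D : ℕ} (hD : 1 ≤ D)
    (hS : ∀ r ∈ S, 2 ≤ r ∧ r ≤ D) :
    ∑ r ∈ S, ∑ χ ∈ Pr r, ‖EE χ X‖ ^ 2 ≤ 132 * (X + (D : ℝ) ^ 2) * (X * Real.log X) := by
  have h1 : ∑ r ∈ S, ∑ χ ∈ Pr r, ‖EE χ X‖ ^ 2 ≤
      ∑ d ∈ S, ∑ ψ ∈ Pr d, ((d : ℝ) / Nat.totient d) *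
        ‖∑ m ∈ Finset.Ioc 0 (0 + ⌊X⌋₊), (Lam m : ℂ) * ψ (m : ZMod d)‖ ^ 2 := by
    refine sum_le_sum fun r hr => sum_le_sum fun χ hχ => ?_
    have hr2 := (hS r hr).1
    have hφ : (0 : ℝ) < Nat.totient r := by exact_mod_cast Nat.totient_pos.mpr (by omega)
    have hE : EE χ X = ∑ m ∈ Finset.Ioc 0 (0 + ⌊X⌋₊), (Lam m : ℂ) * χ (m : ZMod r) := by
      unfold EE
      rw [if_neg (lfi_ne hr2 hχ), sub_zero, zero_add]
      rfl
    rw [hE]
    have h2 : (1 : ℝ) ≤ (r : ℝ) / Nat.totient r := by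
      rw [le_div_iff₀ hφ, one_mul]
      exact_mod_cast Nat.totient_le r
    have h3 : 0 ≤ ‖∑ m ∈ Finset.Ioc 0 (0 + ⌊X⌋₊), (Lam m : ℂ) * χ (m : ZMod r)‖ ^ 2 := by
      positivity
    nlinarith
  refine h1.trans ?_
  have h3 := mlsP S D (fun d hd => ⟨by have := (hS d hd).1; omega, (hS d hd).2⟩) hD
    (fun n => (Lam n : ℂ)) 0 ⌊X⌋₊
  have hL : 0 ≤ Real.log X := by linarith [dfa_log hX]
  have h4 : ∑ m ∈ Finset.Ioc 0 (0 + ⌊X⌋₊), ‖(Lam m : ℂ)‖ ^ 2 ≤ 6 * X * Real.log X := by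
    refine le_trans (le_of_eq ?_) (dfa_A2 hX)
    unfold A2
    rw [zero_add]
    refine sum_congr (by ext n; simp only [mem_Ioc, mem_Icc]; omega) fun n _ => ?_
    rw [Complex.norm_real, Real.norm_eq_abs, sq_abs]
  refine h3.trans ?_
  have h5 : (⌊X⌋₊ : ℝ) ≤ X := Nat.floor_le (by linarith)
  calc 22 * ((⌊X⌋₊ : ℝ) + (D : ℝ) ^ 2) * ∑ m ∈ Finset.Ioc 0 (0 + ⌊X⌋₊), ‖(Lam m : ℂ)‖ ^ 2
      ≤ 22 * (X + (D : ℝ) ^ 2) * (6 * X * Real.log X) := by
        apply mul_le_mul (by nlinarith) h4 (sum_nonneg fun _ _ => by positivity) (by positivity)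
    _ = _ := by ring

/-- the conductors divisible by the prime -/
theorem pm_split {q P : ℕ} (hq : 1 ≤ q) (hqP : q ≤ P) (F : ℕ → ℝ) (hF : ∀ r, 0 ≤ F r) :
    ∑ p ∈ (Ioc P (2 * P)).filter Nat.Prime, ∑ r ∈ (q * p).divisors, F r ≤
      P * ∑ r ∈ q.divisors, F r + ∑ r ∈ Icc 2 (2 * q * P), F r := by
  classical
  set T := (Ioc P (2 * P)).filter Nat.Prime with hT
  have hTm : ∀ p ∈ T, P < p ∧ p ≤ 2 * P ∧ p.Prime := by
    intro p hp
    rw [hT, mem_filter, mem_Ioc] at hp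
    exact ⟨hp.1.1, hp.1.2, hp.2⟩
  have h1 : ∀ p ∈ T, ∑ r ∈ (q * p).divisors, F r ≤
      ∑ r ∈ q.divisors, F r + ∑ r ∈ (q * p).divisors.filter (fun r => p ∣ r), F r := by
    intro p hp
    obtain ⟨hp1, hp2, hp3⟩ := hTm p hp
    rw [← sum_filter_add_sum_filter_not (q * p).divisors (fun r => p ∣ r) F, add_comm]
    refine add_le_add ?_ le_rfl
    refine sum_le_sum_of_subset_of_nonneg ?_ fun _ _ _ => hF _
    intro r hr
    rw [mem_filter, Nat.mem_divisors] at hr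
    rw [Nat.mem_divisors]
    refine ⟨?_, by omega⟩
    have hc : Nat.Coprime r p := ((Nat.Prime.coprime_iff_not_dvd hp3).2 hr.2).symm
    exact hc.dvd_of_dvd_mul_right hr.1.1
  refine (sum_le_sum h1).trans ?_
  rw [sum_add_distrib]
  have hcard : (T.card : ℝ) ≤ P := by
    have h2 : T.card ≤ (Ioc P (2 * P)).card := card_filter_le _ _
    rw [Nat.card_Ioc] at h2
    have h3 : T.card ≤ P := by omega
    exact_mod_cast h3
  refine add_le_add ?_ ?_
  · rw [sum_const, nsmul_eq_mul]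
    exact mul_le_mul_of_nonneg_right hcard (sum_nonneg fun _ _ => hF _)
  · rw [← sum_biUnion]
    · refine sum_le_sum_of_subset_of_nonneg ?_ fun _ _ _ => hF _
      intro r hr
      rw [mem_biUnion] at hr
      obtain ⟨p, hp, hr⟩ := hr
      obtain ⟨hp1, hp2, hp3⟩ := hTm p hp
      rw [mem_filter, Nat.mem_divisors] at hr
      obtain ⟨⟨hr1, hr2⟩, hr3⟩ := hr
      have hr0 : 0 < r := Nat.pos_of_dvd_of_pos hr1 (by omega)
      have e1 : p ≤ r := Nat.le_of_dvd hr0 hr3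
      have e2 : r ≤ q * p := Nat.le_of_dvd (by omega) hr1
      have e3 : q * p ≤ q * (2 * P) := Nat.mul_le_mul_left q hp2
      have e4 := hp3.two_le
      rw [mem_Icc]
      refine ⟨by omega, ?_⟩
      calc r ≤ q * (2 * P) := e2.trans e3
        _ = 2 * q * P := by ring
    · intro p hp p' hp' hne
      have hp := hTm p hp
      have hp' := hTm p' hp'
      rw [Function.onFun, disjoint_left]
      intro r hr hr'
      rw [mem_filter, Nat.mem_divisors] at hr hr'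
      have h2 : p' ∣ q * p := hr'.2.trans hr.1.1
      rcases (Nat.Prime.dvd_mul hp'.2.2).1 h2 with h3 | h3
      · have := Nat.le_of_dvd (by omega) h3
        omega
      · exact hne ((Nat.prime_dvd_prime_iff_eq hp'.2.2 hp.2.2).1 h3).symm

/-- (4) implies (2'), for `κ ≥ 1/2` -/
theorem zf_to_pm {κ : ℝ} (h0 : 1 / 2 ≤ κ) (h1 : κ < 1) (h : ZF ((1 + κ) / 2)) :
    PrimeMultiples κ := by
  intro ε hε q hq
  set θ : ℝ := (1 + κ) / 2 with hθ
  have hθ1 : 3 / 4 ≤ θ := by rw [hθ]; linarith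
  have hθ2 : θ < 1 := by rw [hθ]; linarith
  obtain ⟨δ, hδ, hδ1, hδ2⟩ : ∃ δ : ℝ, 0 < δ ∧ 2 * δ ≤ ε ∧ θ + δ < 1 := by
    refine ⟨min (ε / 2) ((1 - θ) / 2), lt_min (by linarith) (by linarith), ?_, ?_⟩
    · have := min_le_left (ε / 2) ((1 - θ) / 2)
      linarith
    · have := min_le_right (ε / 2) ((1 - θ) / 2)
      linarith
  obtain ⟨C1, hC1, hf⟩ := pm_fix hθ1 h (show θ < θ + δ by linarith) hδ2 q
  obtain ⟨C2, hC2, hl⟩ := lfi_log 3 (show (0 : ℝ) < 1 by norm_num) (show (0 : ℝ) < 1 by norm_num)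
  have hq1 : (1 : ℝ) ≤ q := by exact_mod_cast hq
  obtain ⟨C3, hC3⟩ : ∃ C3 : ℝ, C3 = 2 * C1 + 264 * (1 + 4 * (q : ℝ) ^ 2) + 8 := ⟨_, rfl⟩
  refine ⟨max (max C2 C3) ((q : ℝ) ^ 2 * 2), fun X P hCX hXP hPX => ?_⟩
  obtain ⟨C, hC⟩ : ∃ C : ℝ, C = max (max C2 C3) ((q : ℝ) ^ 2 * 2) := ⟨_, rfl⟩
  rw [← hC] at hCX hPX ⊢
  have c2 : C2 ≤ C := by
    rw [hC]
    exact (le_max_left _ _).trans (le_max_left _ _)
  have c3 : C3 ≤ C := by
    rw [hC]
    exact (le_max_right _ _).trans (le_max_left _ _)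
  have cq : (q : ℝ) ^ 2 * 2 ≤ C := by
    rw [hC]
    exact le_max_right _ _
  have hX3 : 3 ≤ X := by linarith
  have hX1 : 1 ≤ X := by linarith
  have hX0 : 0 < X := by linarith
  have hlog : 1 ≤ Real.log X := by linarith [dfa_log hX3]
  -- `P` is at least `√X`
  have hPs : X ≤ (P : ℝ) ^ 2 := by
    have e1 : X ^ (1 / 2 : ℝ) ≤ P :=
      (Real.rpow_le_rpow_of_exponent_le hX1 (by linarith)).trans hXP
    calc X = (X ^ (1 / 2 : ℝ)) ^ 2 := by
          rw [← Real.rpow_natCast, ← Real.rpow_mul hX0.le]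
          norm_num
      _ ≤ (P : ℝ) ^ 2 := pow_le_pow_left₀ (by positivity) e1 2
  have hP0 : (0 : ℝ) < P := by
    rcases Nat.eq_zero_or_pos P with h2 | h2
    · rw [h2] at hPs
      norm_num at hPs
      linarith
    · exact_mod_cast h2
  have hqP : q ≤ P := by
    have e1 : (q : ℝ) ^ 2 ≤ (P : ℝ) ^ 2 := by
      have : 0 ≤ (q : ℝ) ^ 2 := by positivity
      linarith
    exact_mod_cast (pow_le_pow_iff_left₀ (by positivity) hP0.le (by norm_num)).1 e1
  have h2qP : 2 * (q : ℝ) * P ≤ X := by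
    refine le_trans ?_ hPX
    have : 2 * (q : ℝ) ≤ C := by nlinarith
    exact mul_le_mul_of_nonneg_right this hP0.le
  -- the sum
  obtain ⟨F, hF⟩ : ∃ F : ℕ → ℝ, F = fun r => ∑ ψ ∈ Pr r, ‖EE ψ X‖ ^ 2 := ⟨_, rfl⟩
  have hF0 : ∀ r, 0 ≤ F r := fun r => by
    rw [hF]
    exact sum_nonneg fun _ _ => by positivity
  have hone : ∀ p ∈ (Ioc P (2 * P)).filter Nat.Prime, GX X (q * p) ≤
      (2 / P) * ∑ r ∈ (q * p).divisors, F r + 8 * Real.log X ^ 4 := by
    intro p hp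
    rw [mem_filter, mem_Ioc] at hp
    obtain ⟨⟨hp1, hp2⟩, hp3⟩ := hp
    have hQX : ((q * p : ℕ) : ℝ) ≤ X := by
      push_cast
      refine le_trans ?_ h2qP
      have : (p : ℝ) ≤ 2 * P := by exact_mod_cast hp2
      nlinarith
    have hqp : 1 ≤ q * p := Nat.mul_pos (by omega) (by omega)
    refine (pm_GX hX3 hqp hQX).trans ?_
    have hφ : P ≤ Nat.totient (q * p) := by
      have e1 : P ≤ Nat.totient p := by
        rw [Nat.totient_prime hp3]
        omega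
      refine e1.trans (Nat.le_of_dvd (Nat.totient_pos.2 (by omega)) ?_)
      exact Nat.totient_dvd_of_dvd (Dvd.intro_left q rfl)
    have hφ' : (P : ℝ) ≤ Nat.totient (q * p) := by exact_mod_cast hφ
    have hs : 0 ≤ ∑ r ∈ (q * p).divisors, F r := sum_nonneg fun _ _ => hF0 _
    have e2 : (2 / (Nat.totient (q * p) : ℝ)) ≤ 2 / P := by gcongr
    have e3 : (2 / (Nat.totient (q * p) : ℝ)) * ∑ r ∈ (q * p).divisors, F r ≤
        (2 / P) * ∑ r ∈ (q * p).divisors, F r := mul_le_mul_of_nonneg_right e2 hs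
    rw [hF] at e3 ⊢
    linarith
  refine (sum_le_sum hone).trans ?_
  rw [sum_add_distrib, ← mul_sum, sum_const, nsmul_eq_mul]
  have hcard : ((((Ioc P (2 * P)).filter Nat.Prime).card : ℕ) : ℝ) ≤ P := by
    have h2 : ((Ioc P (2 * P)).filter Nat.Prime).card ≤ (Ioc P (2 * P)).card := card_filter_le _ _
    rw [Nat.card_Ioc] at h2
    have h3 : ((Ioc P (2 * P)).filter Nat.Prime).card ≤ P := by omega
    exact_mod_cast h3
  have hsp := pm_split hq hqP F hF0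
  have hfi : ∑ r ∈ q.divisors, F r ≤ C1 * (X * P) := by
    rw [hF]
    refine (hf X hX1).trans ?_
    refine mul_le_mul_of_nonneg_left ?_ (by linarith)
    calc X ^ (2 * (θ + δ)) ≤ X ^ (1 + (κ + ε)) :=
          Real.rpow_le_rpow_of_exponent_le hX1 (by rw [hθ]; linarith)
      _ = X * X ^ (κ + ε) := by rw [Real.rpow_add hX0, Real.rpow_one]
      _ ≤ X * P := by gcongr
  have hla : ∑ r ∈ Icc 2 (2 * q * P), F r ≤
      132 * ((1 + 4 * (q : ℝ) ^ 2) * P ^ 2) * (X * Real.log X) := by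
    have e1 := pm_large hX3 (Icc 2 (2 * q * P)) (D := 2 * q * P) (by
      have : 0 < P := by exact_mod_cast hP0
      have : 0 < 2 * q * P := by positivity
      omega) (fun r hr => by rw [mem_Icc] at hr; exact hr)
    rw [hF]
    refine e1.trans ?_
    have e2 : X + ((2 * q * P : ℕ) : ℝ) ^ 2 ≤ (1 + 4 * (q : ℝ) ^ 2) * P ^ 2 := by
      push_cast
      nlinarith
    have e3 : 0 ≤ X * Real.log X := by positivity
    nlinarith
  have hl3 : Real.log X ^ 3 ≤ X := by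
    have := hl X (c2.trans hCX)
    rwa [one_mul, Real.rpow_one] at this
  have t1 : 2 / (P : ℝ) * ∑ p ∈ (Ioc P (2 * P)).filter Nat.Prime, ∑ r ∈ (q * p).divisors, F r ≤
      2 * (C1 * (X * P)) + 264 * (1 + 4 * (q : ℝ) ^ 2) * (P * (X * Real.log X)) := by
    calc 2 / (P : ℝ) * ∑ p ∈ (Ioc P (2 * P)).filter Nat.Prime, ∑ r ∈ (q * p).divisors, F r
        ≤ 2 / (P : ℝ) * (P * (C1 * (X * P)) +
          132 * ((1 + 4 * (q : ℝ) ^ 2) * P ^ 2) * (X * Real.log X)) := by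
          refine mul_le_mul_of_nonneg_left ?_ (by positivity)
          refine hsp.trans ?_
          have : (P : ℝ) * ∑ r ∈ q.divisors, F r ≤ P * (C1 * (X * P)) :=
            mul_le_mul_of_nonneg_left hfi hP0.le
          linarith
      _ = _ := by
          field_simp
          ring
  have t2 : ((((Ioc P (2 * P)).filter Nat.Prime).card : ℕ) : ℝ) * (8 * Real.log X ^ 4) ≤
      8 * (X * P * Real.log X) := by
    calc ((((Ioc P (2 * P)).filter Nat.Prime).card : ℕ) : ℝ) * (8 * Real.log X ^ 4)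
        ≤ P * (8 * Real.log X ^ 4) := mul_le_mul_of_nonneg_right hcard (by positivity)
      _ = 8 * P * Real.log X * Real.log X ^ 3 := by ring
      _ ≤ 8 * P * Real.log X * X := by gcongr
      _ = _ := by ring
  have t3 : X * P ≤ X * P * Real.log X := by
    have : 0 ≤ X * P := by positivity
    nlinarith
  have t4 : C3 * (X * P * Real.log X) ≤ C * (X * P * Real.log X) :=
    mul_le_mul_of_nonneg_right c3 (by positivity)
  rw [hC3] at t4
  have t5 : 2 * (C1 * (X * P)) ≤ 2 * C1 * (X * P * Real.log X) := by nlinarith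
  nlinarith [t1, t2, t4, t5]

/-! ## One modulus -/

/-- many primes in `(P, 2P]` -/
theorem pm_primes : ∃ P₀ : ℕ, 2 ≤ P₀ ∧ ∀ P : ℕ, P₀ ≤ P →
    (P : ℝ) ≤ 2 * Real.log (2 * P) * (((Ioc P (2 * P)).filter Nat.Prime).card : ℝ) := by
  have h1 := Pool.Agent.Lib_helper90.PNT.tendsto_psi_div
  rw [Metric.tendsto_atTop] at h1
  obtain ⟨N, hN⟩ := h1 (1 / 24) (by norm_num)
  obtain ⟨C, hC⟩ := Chebyshev.psi_sub_theta_le_mul_sqrt
  obtain ⟨K, hK⟩ : ∃ K : ℝ, K = 24 * (|C| + 1) := ⟨_, rfl⟩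
  have hK0 : 0 < K := by
    rw [hK]
    positivity
  refine ⟨max 2 ⌈max N (K ^ 2)⌉₊, le_max_left _ _, fun P hP => ?_⟩
  have hP2 : 2 ≤ P := (le_max_left _ _).trans hP
  have hP2' : (2 : ℝ) ≤ P := by exact_mod_cast hP2
  have hPm : max N (K ^ 2) ≤ P := by
    have h2 : ⌈max N (K ^ 2)⌉₊ ≤ P := (le_max_right _ _).trans hP
    exact (Nat.le_ceil _).trans (by exact_mod_cast h2)
  have hPN : N ≤ P := (le_max_left _ _).trans hPm
  have hPK : K ^ 2 ≤ P := (le_max_right _ _).trans hPm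
  have hsq : ∀ x : ℝ, (P : ℝ) ≤ x → Chebyshev.psi x - Chebyshev.theta x ≤ x / 24 := by
    intro x hx
    have hx0 : 0 ≤ x := by linarith
    have e1 : K ≤ Real.sqrt x := by
      rw [Real.le_sqrt hK0.le hx0]
      exact hPK.trans hx
    have e2 : Real.sqrt x * Real.sqrt x = x := Real.mul_self_sqrt hx0
    have e3 := hC x
    have e4 : C ≤ |C| := le_abs_self C
    have e5 : 0 ≤ Real.sqrt x := Real.sqrt_nonneg x
    have e6 : C * Real.sqrt x ≤ (K / 24) * Real.sqrt x := by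
      refine mul_le_mul_of_nonneg_right ?_ e5
      rw [hK]
      linarith
    have e7 : (K / 24) * Real.sqrt x ≤ x / 24 := by nlinarith
    linarith
  have hpsi : ∀ x : ℝ, (P : ℝ) ≤ x → |Chebyshev.psi x - x| ≤ x / 24 := by
    intro x hx
    have hx0 : 0 < x := by linarith
    have e1 := hN x (hPN.trans hx)
    rw [Real.dist_eq] at e1
    have e2 : Chebyshev.psi x - x = (Chebyshev.psi x / x - 1) * x := by
      field_simp
    rw [e2, abs_mul, abs_of_pos hx0]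
    nlinarith
  have b1 := hpsi (2 * P) (by linarith)
  have b2 := hsq (2 * P) (by linarith)
  have b3 := hpsi P le_rfl
  have b4 := Chebyshev.theta_le_psi (P : ℝ)
  rw [abs_le] at b1 b3
  have key : (P : ℝ) / 2 ≤ Chebyshev.theta (2 * P) - Chebyshev.theta P := by linarith
  have e1 : Chebyshev.theta (2 * P) - Chebyshev.theta P =
      ∑ p ∈ (Ioc P (2 * P)).filter Nat.Prime, Real.log p := by
    have e2 : ⌊(2 * P : ℝ)⌋₊ = 2 * P := by
      have : (2 * P : ℝ) = ((2 * P : ℕ) : ℝ) := by push_cast; ring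
      rw [this, Nat.floor_natCast]
    unfold Chebyshev.theta
    rw [e2, Nat.floor_natCast]
    have e3 : (Ioc 0 (2 * P)).filter Nat.Prime =
        (Ioc 0 P).filter Nat.Prime ∪ (Ioc P (2 * P)).filter Nat.Prime := by
      ext n
      simp only [mem_union, mem_filter, mem_Ioc]
      constructor
      · rintro ⟨h2, h3⟩
        by_cases h4 : n ≤ P
        · exact Or.inl ⟨⟨h2.1, h4⟩, h3⟩
        · exact Or.inr ⟨⟨by omega, h2.2⟩, h3⟩
      · rintro (⟨h2, h3⟩ | ⟨h2, h3⟩)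
        · exact ⟨⟨h2.1, by omega⟩, h3⟩
        · exact ⟨⟨by omega, h2.2⟩, h3⟩
    rw [e3, sum_union]
    · ring
    · rw [disjoint_left]
      intro n h2 h3
      rw [mem_filter, mem_Ioc] at h2 h3
      omega
  have e4 : ∑ p ∈ (Ioc P (2 * P)).filter Nat.Prime, Real.log p ≤
      ∑ p ∈ (Ioc P (2 * P)).filter Nat.Prime, Real.log (2 * P) := by
    refine sum_le_sum fun p hp => ?_
    rw [mem_filter, mem_Ioc] at hp
    refine Real.log_le_log (by exact_mod_cast hp.2.pos) ?_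
    exact_mod_cast hp.1.2
  rw [sum_const, nsmul_eq_mul] at e4
  rw [e1] at key
  linarith

/-- (2') implies (3) -/
theorem pm_to_one {κ : ℝ} (h0 : 0 < κ) (h1 : κ < 1) (h : PrimeMultiples κ) : OneModulus κ := by
  intro ε hε q hq
  obtain ⟨δ, hδ, hδ1, hδ2⟩ : ∃ δ : ℝ, 0 < δ ∧ 2 * δ ≤ ε ∧ κ + 2 * δ ≤ 1 := by
    refine ⟨min (ε / 2) ((1 - κ) / 2), lt_min (by linarith) (by linarith), ?_, ?_⟩
    · have := min_le_left (ε / 2) ((1 - κ) / 2)
      linarith
    · have := min_le_right (ε / 2) ((1 - κ) / 2)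
      linarith
  have hq1 : (1 : ℝ) ≤ q := by exact_mod_cast hq
  obtain ⟨C1, hC1⟩ := h δ hδ q hq
  obtain ⟨P₀, hP₀, hpr⟩ := pm_primes
  obtain ⟨A, hA⟩ : ∃ A : ℝ, A = max C1 1 := ⟨_, rfl⟩
  have hA1 : 1 ≤ A := by
    rw [hA]
    exact le_max_right _ _
  have hAC : C1 ≤ A := by
    rw [hA]
    exact le_max_left _ _
  obtain ⟨C2, hC2, hl⟩ := lfi_log 2 hε (show (0 : ℝ) < 1 / (8 * A) by positivity)
  -- the power of `X` gained
  obtain ⟨C3, hC3⟩ : ∃ C3 : ℝ, C3 = (4 * q * A) ^ (1 / δ) := ⟨_, rfl⟩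
  obtain ⟨C4, hC4⟩ : ∃ C4 : ℝ, C4 = (P₀ : ℝ) ^ (1 / κ) := ⟨_, rfl⟩
  refine ⟨max (max C1 C2) (max C3 C4), fun X hCX => ?_⟩
  have x1 : C1 ≤ X := (le_max_left _ _).trans ((le_max_left _ _).trans hCX)
  have x2 : C2 ≤ X := (le_max_right _ _).trans ((le_max_left _ _).trans hCX)
  have x3 : C3 ≤ X := (le_max_left _ _).trans ((le_max_right _ _).trans hCX)
  have x4 : C4 ≤ X := (le_max_right _ _).trans ((le_max_right _ _).trans hCX)
  have hX3 : 3 ≤ X := hC2.trans x2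
  have hX1 : 1 ≤ X := by linarith
  have hX0 : 0 < X := by linarith
  have hlog : 1 ≤ Real.log X := by linarith [dfa_log hX3]
  have y3 : 4 * q * A ≤ X ^ δ := by
    calc 4 * (q : ℝ) * A = ((4 * q * A) ^ (1 / δ)) ^ δ := by
          rw [← Real.rpow_mul (by positivity), one_div, inv_mul_cancel₀ hδ.ne', Real.rpow_one]
      _ ≤ X ^ δ := by
          rw [hC3] at x3
          exact Real.rpow_le_rpow (by positivity) x3 hδ.le
  have y4 : (P₀ : ℝ) ≤ X ^ κ := by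
    calc (P₀ : ℝ) = ((P₀ : ℝ) ^ (1 / κ)) ^ κ := by
          rw [← Real.rpow_mul (by positivity), one_div, inv_mul_cancel₀ h0.ne', Real.rpow_one]
      _ ≤ X ^ κ := by
          rw [hC4] at x4
          exact Real.rpow_le_rpow (by positivity) x4 h0.le
  obtain ⟨P, hP⟩ : ∃ P : ℕ, P = ⌈X ^ (κ + δ)⌉₊ := ⟨_, rfl⟩
  have hXκ : X ^ κ ≤ X ^ (κ + δ) := Real.rpow_le_rpow_of_exponent_le hX1 (by linarith)
  have hp1 : X ^ (κ + δ) ≤ P := by
    rw [hP]
    exact Nat.le_ceil _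
  have hone : 1 ≤ X ^ (κ + δ) := Real.one_le_rpow hX1 (by linarith)
  have hp2 : (P : ℝ) ≤ 2 * X ^ (κ + δ) := by
    have := Nat.ceil_lt_add_one (show 0 ≤ X ^ (κ + δ) by positivity)
    rw [← hP] at this
    linarith
  have hPP : P₀ ≤ P := by
    have : (P₀ : ℝ) ≤ P := by linarith
    exact_mod_cast this
  have hP0 : (0 : ℝ) < P := by linarith
  have hmul : 4 * q * A * X ^ (κ + δ) ≤ X ^ (κ + 2 * δ) := by
    calc 4 * q * A * X ^ (κ + δ) ≤ X ^ δ * X ^ (κ + δ) := by gcongr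
      _ = X ^ (κ + 2 * δ) := by
          rw [← Real.rpow_add hX0]
          congr 1
          ring
  have hXX : X ^ (κ + 2 * δ) ≤ X := by
    calc X ^ (κ + 2 * δ) ≤ X ^ (1 : ℝ) := Real.rpow_le_rpow_of_exponent_le hX1 hδ2
      _ = X := Real.rpow_one X
  have hAP : A * P ≤ X := by
    have : A * P ≤ A * (2 * X ^ (κ + δ)) := by gcongr
    have : A * (2 * X ^ (κ + δ)) ≤ 4 * q * A * X ^ (κ + δ) := by
      have : 0 ≤ A * X ^ (κ + δ) := by positivity
      nlinarith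
    linarith
  have hsum := hC1 X P x1 hp1 ((mul_le_mul_of_nonneg_right hAC hP0.le).trans hAP)
  have hprimes := hpr P hPP
  -- one of the moduli works
  by_contra hno
  push Not at hno
  have hlow : ∀ p ∈ (Ioc P (2 * P)).filter Nat.Prime, X ^ (1 + ε) ≤ GX X (q * p) := by
    intro p hp
    rw [mem_filter, mem_Ioc] at hp
    refine (hno (q * p) (Nat.mul_pos (by omega) (by omega)) (Dvd.intro p rfl) ?_).le
    have e1 : (p : ℝ) ≤ 2 * P := by exact_mod_cast hp.1.2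
    push_cast
    calc (q : ℝ) * p ≤ q * (2 * (2 * X ^ (κ + δ))) := by
          gcongr
          linarith
      _ = 4 * q * 1 * X ^ (κ + δ) := by ring
      _ ≤ 4 * q * A * X ^ (κ + δ) := by gcongr
      _ ≤ X ^ (κ + 2 * δ) := hmul
      _ ≤ X ^ (κ + ε) := Real.rpow_le_rpow_of_exponent_le hX1 (by linarith)
  have h2 := sum_le_sum hlow
  rw [sum_const, nsmul_eq_mul] at h2
  obtain ⟨n, hn⟩ : ∃ n : ℝ, n = ((((Ioc P (2 * P)).filter Nat.Prime).card : ℕ) : ℝ) := ⟨_, rfl⟩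
  rw [← hn] at h2 hprimes
  have hn0 : 0 ≤ n := by
    rw [hn]
    positivity
  have hXe : X ^ (1 + ε) = X * X ^ ε := by rw [Real.rpow_add hX0, Real.rpow_one]
  have hl2 : Real.log (2 * P) ≤ Real.log X := by
    refine Real.log_le_log (by positivity) ?_
    have : 2 * (P : ℝ) ≤ 4 * q * A * X ^ (κ + δ) := by
      calc 2 * (P : ℝ) ≤ 4 * 1 * 1 * X ^ (κ + δ) := by linarith
        _ ≤ 4 * q * A * X ^ (κ + δ) := by gcongr
    linarith
  have h3 : (P : ℝ) ≤ 2 * Real.log X * n := by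
    refine hprimes.trans ?_
    gcongr
  have hn1 : 0 < n := by
    rcases hn0.eq_or_lt with h4 | h4
    · rw [← h4] at h3
      linarith
    · exact h4
  have h5 : n * (X * X ^ ε) ≤ A * X * (2 * Real.log X * n) * Real.log X := by
    rw [← hXe]
    refine h2.trans (hsum.trans ?_)
    have : C1 * X * P * Real.log X ≤ A * X * P * Real.log X := by gcongr
    refine this.trans ?_
    gcongr
  have h6 : X ^ ε ≤ 2 * A * Real.log X ^ 2 := by
    have h7 : (n * X) * X ^ ε ≤ (n * X) * (2 * A * Real.log X ^ 2) := by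
      calc (n * X) * X ^ ε = n * (X * X ^ ε) := by ring
        _ ≤ _ := h5
        _ = _ := by ring
    exact le_of_mul_le_mul_left h7 (by positivity)
  have h8 := hl X x2
  have h9 : 0 < X ^ ε := Real.rpow_pos_of_pos hX0 _
  have h10 : 2 * A * Real.log X ^ 2 ≤ X ^ ε / 4 := by
    calc 2 * A * Real.log X ^ 2 ≤ 2 * A * (1 / (8 * A) * X ^ ε) := by gcongr
      _ = X ^ ε / 4 := by
          field_simp
          ring
  linarith

/-- (4) implies (3), for `κ ≥ 1/2` -/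
theorem zf_to_one {κ : ℝ} (h0 : 1 / 2 ≤ κ) (h1 : κ < 1) (h : ZF ((1 + κ) / 2)) : OneModulus κ :=
  pm_to_one (by linarith) h1 (zf_to_pm h0 h1 h)

/-- the asymptotic formula with the second order term in absolute mean over the moduli `Q ≤ Y`, for
`X^(κ+ε) ≤ Y = o(X)` -/
def EvAbs (κ : ℝ) : Prop :=
  ∀ ε : ℝ, 0 < ε → ∀ η : ℝ, 0 < η → ∃ C : ℝ, ∀ (X : ℝ) (Y : ℕ), C ≤ X → X ^ (κ + ε) ≤ (Y : ℝ) →
    C * (Y : ℝ) ≤ X →
    ∑ Q ∈ Icc 1 Y, |GX X Q - X * (Real.log Q - CQ Q)| ≤ η * X * Y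

/-- one character modulo `q` and the character modulo `Q` it induces -/
theorem ev_char {X : ℝ} (hX : 3 ≤ X) {Q : ℕ} (hQ : 1 ≤ Q) (hQX : (Q : ℝ) ≤ X) {q : ℕ} [NeZero q]
    (hq : q ∣ Q) (χ : DirichletCharacter ℂ q) :
    ‖EE χ X‖ ^ 2 ≤ 2 * ‖EE (DirichletCharacter.changeLevel hq χ) X‖ ^ 2 +
      8 * Real.log X ^ 4 := by
  have hQ0 : NeZero Q := ⟨by omega⟩
  set ψ : DirichletCharacter ℂ Q := DirichletCharacter.changeLevel hq χ with hψ
  have h1 : ψ = 1 ↔ χ = 1 := DirichletCharacter.changeLevel_eq_one_iff hq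
  have h2 : EE χ X - EE ψ X =
      ∑ n ∈ (Icc 1 ⌊X⌋₊).filter (fun n => ¬ Nat.Coprime n Q), (Lam n : ℂ) * χ (n : ZMod q) := by
    have e1 : EE χ X - EE ψ X = ∑ n ∈ Icc 1 ⌊X⌋₊, (Lam n : ℂ) * χ (n : ZMod q) -
        ∑ n ∈ Icc 1 ⌊X⌋₊, (Lam n : ℂ) * ψ (n : ZMod Q) := by
      unfold EE
      by_cases h : χ = 1
      · rw [if_pos h, if_pos (h1.2 h)]
        ring
      · rw [if_neg h, if_neg (fun h' => h (h1.1 h'))]
        ring
    rw [e1, ← sum_sub_distrib, sum_filter]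
    apply sum_congr rfl
    intro n _
    by_cases hn : n.Coprime Q
    · rw [if_neg (not_not.2 hn)]
      have h3 : ψ (n : ZMod Q) = χ (n : ZMod q) := by
        have h4 := DirichletCharacter.changeLevel_eq_cast_of_dvd χ hq
          ((ZMod.isUnit_iff_coprime n Q).2 hn).unit
        rw [IsUnit.unit_spec, ZMod.cast_natCast hq] at h4
        exact h4
      rw [h3, sub_self]
    · rw [if_pos hn, da3_zero ψ hn, mul_zero, sub_zero]
  have h3 : ‖EE χ X - EE ψ X‖ ≤ 2 * Real.log X ^ 2 := by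
    rw [h2]
    refine (norm_sum_le _ _).trans (le_trans (sum_le_sum fun n _ => ?_) (non_cop_pr X hX Q hQ hQX))
    have h4 : 0 ≤ Lam n := ArithmeticFunction.vonMangoldt_nonneg
    rw [norm_mul, Complex.norm_real, Real.norm_eq_abs, abs_of_nonneg h4]
    exact mul_le_of_le_one_right h4 (χ.norm_le_one _)
  have h4 : ‖EE χ X‖ ≤ ‖EE ψ X‖ + ‖EE χ X - EE ψ X‖ := by
    have h5 := norm_add_le (EE ψ X) (EE χ X - EE ψ X)
    rwa [add_sub_cancel] at h5
  have h6 : ‖EE χ X‖ ^ 2 ≤ (‖EE ψ X‖ + ‖EE χ X - EE ψ X‖) ^ 2 :=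
    pow_le_pow_left₀ (norm_nonneg _) h4 2
  have h7 : ‖EE χ X - EE ψ X‖ ^ 2 ≤ (2 * Real.log X ^ 2) ^ 2 :=
    pow_le_pow_left₀ (norm_nonneg _) h3 2
  nlinarith [sq_nonneg (‖EE ψ X‖ - ‖EE χ X - EE ψ X‖)]

theorem ev_totient (q m : ℕ) : Nat.totient (m * q) ≤ m * Nat.totient q := by
  induction m using induction_on_primes with
  | zero => simp
  | one => simp
  | prime_mul p a hp ih =>
    have h1 : Nat.totient (p * (a * q)) ≤ p * Nat.totient (a * q) := by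
      by_cases h : p ∣ a * q
      · exact (Nat.totient_mul_of_prime_of_dvd hp h).le
      · rw [Nat.totient_mul_of_prime_of_not_dvd hp h]
        exact Nat.mul_le_mul_right _ (by omega)
    calc Nat.totient (p * a * q) = Nat.totient (p * (a * q)) := by rw [mul_assoc]
      _ ≤ p * Nat.totient (a * q) := h1
      _ ≤ p * (a * Nat.totient q) := Nat.mul_le_mul_left _ ih
      _ = p * a * Nat.totient q := by ring

theorem ev_GX (X : ℝ) {Q : ℕ} (hQ : 1 ≤ Q) :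
    GX X Q = (1 / (Nat.totient Q : ℝ)) * ∑ χ : DirichletCharacter ℂ Q, ‖EE χ X‖ ^ 2 := by
  classical
  have : NeZero Q := ⟨by omega⟩
  rw [idn_total]
  congr 1
  refine sum_congr rfl fun χ _ => ?_
  unfold EE
  congr!

/-- the variance and a multiple of the modulus -/
theorem ev_mul {X : ℝ} (hX : 3 ≤ X) {q m : ℕ} (hq : 1 ≤ q) (hm : 1 ≤ m)
    (hQX : ((q * m : ℕ) : ℝ) ≤ X) : GX X q ≤ 2 * m * GX X (q * m) + 8 * Real.log X ^ 4 := by
  classical
  have hQ : 1 ≤ q * m := Nat.mul_pos hq hm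
  have : NeZero q := ⟨by omega⟩
  have : NeZero (q * m) := ⟨by omega⟩
  have hφ : (0 : ℝ) < Nat.totient q := by exact_mod_cast Nat.totient_pos.mpr hq
  have hφ2 : (0 : ℝ) < Nat.totient (q * m) := by exact_mod_cast Nat.totient_pos.mpr hQ
  have hd : q ∣ q * m := Dvd.intro m rfl
  rw [ev_GX X hq, ev_GX X hQ]
  set S : ℝ := ∑ χ : DirichletCharacter ℂ (q * m), ‖EE χ X‖ ^ 2 with hS
  have hS0 : 0 ≤ S := sum_nonneg fun _ _ => by positivity
  have h1 : ∑ χ : DirichletCharacter ℂ q, ‖EE (DirichletCharacter.changeLevel hd χ) X‖ ^ 2 ≤ S := by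
    rw [hS, ← sum_image (s := (univ : Finset (DirichletCharacter ℂ q)))
      (f := fun ψ : DirichletCharacter ℂ (q * m) => ‖EE ψ X‖ ^ 2)
      (g := fun χ => DirichletCharacter.changeLevel hd χ)]
    · exact sum_le_sum_of_subset_of_nonneg (subset_univ _) fun _ _ _ => by positivity
    · intro a _ b _ hab
      exact DirichletCharacter.changeLevel_injective hd hab
  have h2 : ∑ χ : DirichletCharacter ℂ q, ‖EE χ X‖ ^ 2 ≤
      2 * S + Nat.totient q * (8 * Real.log X ^ 4) := by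
    calc ∑ χ : DirichletCharacter ℂ q, ‖EE χ X‖ ^ 2
        ≤ ∑ χ : DirichletCharacter ℂ q, (2 * ‖EE (DirichletCharacter.changeLevel hd χ) X‖ ^ 2 +
          8 * Real.log X ^ 4) := sum_le_sum fun χ _ => ev_char hX hQ hQX hd χ
      _ = 2 * ∑ χ : DirichletCharacter ℂ q, ‖EE (DirichletCharacter.changeLevel hd χ) X‖ ^ 2 +
          Nat.totient q * (8 * Real.log X ^ 4) := by
          rw [sum_add_distrib, ← mul_sum, sum_const, nsmul_eq_mul, card_univ,
            ← Nat.card_eq_fintype_card,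
            DirichletCharacter.card_eq_totient_of_hasEnoughRootsOfUnity ℂ q]
      _ ≤ _ := by linarith
  have h3 : (Nat.totient (q * m) : ℝ) ≤ m * Nat.totient q := by
    have : Nat.totient (q * m) ≤ m * Nat.totient q := by
      rw [mul_comm q m]
      exact ev_totient q m
    exact_mod_cast this
  have h4 : S / Nat.totient q ≤ m * (S / Nat.totient (q * m)) := by
    rw [mul_div_assoc', div_le_div_iff₀ hφ hφ2]
    nlinarith
  calc (1 / (Nat.totient q : ℝ)) * ∑ χ : DirichletCharacter ℂ q, ‖EE χ X‖ ^ 2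
      ≤ (1 / (Nat.totient q : ℝ)) * (2 * S + Nat.totient q * (8 * Real.log X ^ 4)) := by gcongr
    _ = 2 * (S / Nat.totient q) + 8 * Real.log X ^ 4 := by
        field_simp
    _ ≤ 2 * (m * (S / Nat.totient (q * m))) + 8 * Real.log X ^ 4 := by linarith
    _ = _ := by ring

/-- the small moduli, from the formula for every modulus -/
theorem ev_small {κ : ℝ} (h0 : 0 < κ) (h : EveryQ κ) {ε : ℝ} (hε : 0 < ε)
    (hε1 : κ + 3 * ε ≤ 1) : ∃ C : ℝ, 3 ≤ C ∧ ∀ X : ℝ, C ≤ X →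
      ∑ Q ∈ Icc 1 ⌊X ^ (κ + ε)⌋₊, GX X Q ≤ X * X ^ (κ + ε) * (24 * Real.log X ^ 4) := by
  obtain ⟨C0, hC0⟩ := h ε hε 1 one_pos
  have ev1 := (tendsto_rpow_atTop hε).eventually_ge_atTop (3 : ℝ)
  obtain ⟨C1, hC1⟩ := Filter.eventually_atTop.1 ev1
  refine ⟨max (max C0 C1) 3, le_max_right _ _, fun X hX => ?_⟩
  have x0 : C0 ≤ X := (le_max_left _ _).trans ((le_max_left _ _).trans hX)
  have x1 : 3 ≤ X ^ ε := hC1 X ((le_max_right _ _).trans ((le_max_left _ _).trans hX))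
  have x3 : 3 ≤ X := (le_max_right _ _).trans hX
  have hX0 : 0 < X := by linarith
  have hX1 : 1 ≤ X := by linarith
  have hlog : 1 ≤ Real.log X := by linarith [dfa_log x3]
  set Z : ℝ := X ^ (κ + ε) with hZ
  have hZ1 : 1 ≤ Z := Real.one_le_rpow hX1 (by linarith)
  have hZ2 : 3 * Z ≤ X ^ (1 - ε) := by
    calc 3 * Z ≤ X ^ ε * Z := by gcongr
      _ = X ^ (κ + 2 * ε) := by
          rw [hZ, ← Real.rpow_add hX0]
          congr 1
          ring
      _ ≤ X ^ (1 - ε) := Real.rpow_le_rpow_of_exponent_le hX1 (by linarith)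
  have hXX : X ^ (1 - ε) ≤ X := by
    calc X ^ (1 - ε) ≤ X ^ (1 : ℝ) := Real.rpow_le_rpow_of_exponent_le hX1 (by linarith)
      _ = X := Real.rpow_one X
  have hone : ∀ q ∈ Icc 1 ⌊Z⌋₊, GX X q ≤
      8 * (Z * (X * Real.log X)) * (1 / (q : ℝ)) + 8 * Real.log X ^ 4 := by
    intro q hq
    rw [mem_Icc] at hq
    have hq0 : (0 : ℝ) < q := by exact_mod_cast hq.1
    have hqZ : (q : ℝ) ≤ Z := (Nat.le_floor_iff (by linarith)).1 hq.2
    obtain ⟨m, hm⟩ : ∃ m : ℕ, m = ⌊Z / q⌋₊ + 1 := ⟨_, rfl⟩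
    have hm1 : 1 ≤ m := by omega
    have hZq : 0 ≤ Z / q := by positivity
    have hm2 : Z / q < m := by
      rw [hm]
      push_cast
      exact Nat.lt_floor_add_one _
    have hm3 : (m : ℝ) ≤ Z / q + 1 := by
      rw [hm]
      push_cast
      have := Nat.floor_le hZq
      linarith
    have hqq : q * (Z / q) = Z := by field_simp
    have a1 : Z < ((q * m : ℕ) : ℝ) := by
      push_cast
      calc Z = q * (Z / q) := hqq.symm
        _ < q * m := by gcongr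
    have a2 : ((q * m : ℕ) : ℝ) ≤ 2 * Z := by
      push_cast
      calc (q : ℝ) * m ≤ q * (Z / q + 1) := by gcongr
        _ = Z + q := by rw [mul_add, hqq, mul_one]
        _ ≤ 2 * Z := by linarith
    have a3 : ((q * m : ℕ) : ℝ) < X ^ (1 - ε) := by linarith
    have hQ1 : 1 ≤ q * m := Nat.mul_pos hq.1 hm1
    have b1 := (le_abs_self _).trans (hC0 X (q * m) x0 a1 a3)
    have b2 := DA1_cq (q * m)
    have b3 : Real.log ((q * m : ℕ) : ℝ) ≤ Real.log X :=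
      Real.log_le_log (by exact_mod_cast hQ1) (by linarith)
    have b4 : X * (Real.log ((q * m : ℕ) : ℝ) - CQ (q * m)) ≤ X * Real.log X :=
      mul_le_mul_of_nonneg_left (by linarith) hX0.le
    have b5 : GX X (q * m) ≤ 2 * (X * Real.log X) := by nlinarith
    have b6 := ev_mul x3 hq.1 hm1 (by linarith : ((q * m : ℕ) : ℝ) ≤ X)
    have b7 : (m : ℝ) ≤ 2 * Z * (1 / q) := by
      have : 1 ≤ Z / q := by rwa [le_div_iff₀ hq0, one_mul]
      calc (m : ℝ) ≤ Z / q + 1 := hm3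
        _ ≤ 2 * (Z / q) := by linarith
        _ = _ := by ring
    calc GX X q ≤ 2 * m * GX X (q * m) + 8 * Real.log X ^ 4 := b6
      _ ≤ 2 * (2 * Z * (1 / q)) * (2 * (X * Real.log X)) + 8 * Real.log X ^ 4 := by
          have c1 : 2 * (m : ℝ) * GX X (q * m) ≤ 2 * m * (2 * (X * Real.log X)) :=
            mul_le_mul_of_nonneg_left b5 (by positivity)
          have c2 : 2 * (m : ℝ) * (2 * (X * Real.log X)) ≤
              2 * (2 * Z * (1 / q)) * (2 * (X * Real.log X)) := by gcongr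
          linarith
      _ = _ := by ring
  refine (sum_le_sum hone).trans ?_
  rw [sum_add_distrib, ← mul_sum, sum_const, nsmul_eq_mul, Nat.card_Icc]
  have hN : ((⌊Z⌋₊ + 1 - 1 : ℕ) : ℝ) ≤ Z := by
    rw [Nat.add_sub_cancel]
    exact Nat.floor_le (by linarith)
  have hH : ∑ q ∈ Icc 1 ⌊Z⌋₊, 1 / (q : ℝ) ≤ 2 * Real.log X := by
    have e1 := harmonic_le_one_add_log ⌊Z⌋₊
    have e2 : ((harmonic ⌊Z⌋₊ : ℚ) : ℝ) = ∑ q ∈ Icc 1 ⌊Z⌋₊, 1 / (q : ℝ) := by
      rw [harmonic_eq_sum_Icc]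
      push_cast
      simp only [one_div]
    rw [e2] at e1
    have e3 : Real.log ⌊Z⌋₊ ≤ Real.log X := by
      have e4 : (1 : ℝ) ≤ ⌊Z⌋₊ := by exact_mod_cast Nat.le_floor (by exact_mod_cast hZ1)
      refine Real.log_le_log (by linarith) ?_
      have := Nat.floor_le (show 0 ≤ Z by linarith)
      linarith
    linarith
  have hl2 : Real.log X ^ 2 ≤ Real.log X ^ 4 := pow_le_pow_right₀ hlog (by norm_num)
  have t1 : 8 * (Z * (X * Real.log X)) * ∑ q ∈ Icc 1 ⌊Z⌋₊, 1 / (q : ℝ) ≤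
      16 * (X * Z * Real.log X ^ 4) := by
    calc 8 * (Z * (X * Real.log X)) * ∑ q ∈ Icc 1 ⌊Z⌋₊, 1 / (q : ℝ)
        ≤ 8 * (Z * (X * Real.log X)) * (2 * Real.log X) := by gcongr
      _ = 16 * (X * Z * Real.log X ^ 2) := by ring
      _ ≤ _ := by gcongr
  have t2 : ((⌊Z⌋₊ + 1 - 1 : ℕ) : ℝ) * (8 * Real.log X ^ 4) ≤ 8 * (X * Z * Real.log X ^ 4) := by
    calc ((⌊Z⌋₊ + 1 - 1 : ℕ) : ℝ) * (8 * Real.log X ^ 4) ≤ Z * (8 * Real.log X ^ 4) := by gcongr
      _ = 8 * (1 * Z * Real.log X ^ 4) := by ring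
      _ ≤ _ := by gcongr
  calc _ ≤ 16 * (X * Z * Real.log X ^ 4) + 8 * (X * Z * Real.log X ^ 4) := add_le_add t1 t2
    _ = _ := by ring

theorem ev_mono {κ κ' : ℝ} (h : κ ≤ κ') (h1 : EveryQ κ) : EveryQ κ' := by
  intro ε hε η hη
  obtain ⟨C, hC⟩ := h1 ε hε η hη
  refine ⟨max C 1, fun X Q hX h2 h3 => hC X Q ((le_max_left _ _).trans hX) ?_ h3⟩
  refine lt_of_le_of_lt ?_ h2
  exact Real.rpow_le_rpow_of_exponent_le ((le_max_right _ _).trans hX) (by linarith)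

theorem ev_CQ (Q : ℕ) (hQ : 1 ≤ Q) : |Real.log Q - CQ Q| ≤ Real.log Q + 3 := by
  have h1 : 0 ≤ ∑ p ∈ Q.primeFactors, Real.log p / ((p : ℝ) - 1) := by
    apply sum_nonneg
    intro p hp
    have hp2 : (2 : ℝ) ≤ p := by exact_mod_cast (Nat.prime_of_mem_primeFactors hp).two_le
    have : 0 ≤ Real.log p := Real.log_nonneg (by linarith)
    have : 0 ≤ (p : ℝ) - 1 := by linarith
    positivity
  have h2 : ∑ p ∈ Q.primeFactors, Real.log p / ((p : ℝ) - 1) ≤ Real.log Q := by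
    calc ∑ p ∈ Q.primeFactors, Real.log p / ((p : ℝ) - 1) ≤
        ∑ p ∈ Q.primeFactors, Real.log p := by
          apply sum_le_sum
          intro p hp
          have hp2 : (2 : ℝ) ≤ p := by exact_mod_cast (Nat.prime_of_mem_primeFactors hp).two_le
          have h3 : 0 ≤ Real.log p := Real.log_nonneg (by linarith)
          exact div_le_self h3 (by linarith)
      _ = Real.log (∏ p ∈ Q.primeFactors, (p : ℝ)) := by
          rw [Real.log_prod]
          intro p hp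
          have := (Nat.prime_of_mem_primeFactors hp).pos
          positivity
      _ ≤ Real.log Q := by
          have h3 : ∏ p ∈ Q.primeFactors, p ≤ Q :=
            Nat.le_of_dvd (by omega) (Nat.prod_primeFactors_dvd Q)
          have h4 : (∏ p ∈ Q.primeFactors, (p : ℝ)) ≤ Q := by
            have h5 := (Nat.cast_le (α := ℝ)).2 h3
            rwa [Nat.cast_prod] at h5
          apply Real.log_le_log _ h4
          apply prod_pos
          intro p hp
          exact_mod_cast (Nat.prime_of_mem_primeFactors hp).pos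
  have l3 := Real.eulerMascheroniConstant_lt_two_thirds
  have l4 := Real.one_half_lt_eulerMascheroniConstant
  have l5 : Real.log (2 * Real.pi) ≤ 2 := by
    rw [Real.log_le_iff_le_exp (by positivity)]
    have h1 := Real.pi_lt_d2
    have h2 : (2.7 : ℝ) ^ 2 ≤ Real.exp 2 := by
      have h3 := Real.exp_one_gt_d9
      have h4 : Real.exp 2 = Real.exp 1 ^ 2 := by rw [← Real.exp_nat_mul]; norm_num
      rw [h4]
      gcongr
      linarith
    nlinarith
  have l6 : 0 ≤ Real.log (2 * Real.pi) := Real.log_nonneg (by linarith [Real.pi_gt_three])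
  have l7 : 0 ≤ Real.log Q := Real.log_natCast_nonneg Q
  unfold CQ
  rw [abs_le]
  constructor <;> linarith

/-- (0) implies (1a) -/
theorem every_to_abs {κ : ℝ} (h0 : 0 < κ) (h1 : κ < 1)
    (hb : ∀ κ' : ℝ, 4 / 5 ≤ κ' → κ' < 1 → ZF ((1 + κ') / 2) → EvAbs κ') (h : EveryQ κ) :
    EvAbs κ := by
  obtain ⟨κ', hκ'⟩ : ∃ κ' : ℝ, κ' = max κ (4 / 5) := ⟨_, rfl⟩
  have hk1 : κ ≤ κ' := by
    rw [hκ']
    exact le_max_left _ _
  have hk2 : 4 / 5 ≤ κ' := by
    rw [hκ']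
    exact le_max_right _ _
  have hk3 : κ' < 1 := by
    rw [hκ']
    exact max_lt h1 (by norm_num)
  have hbig : EvAbs κ' := hb κ' hk2 hk3
    (one_to_zf_pr (by linarith) hk3 (every_to_one (by linarith) hk3 (ev_mono hk1 h)))
  intro ε hε η hη
  obtain ⟨δ, hδ, hδ1, hδ2⟩ : ∃ δ : ℝ, 0 < δ ∧ 3 * δ ≤ ε ∧ κ' + 3 * δ ≤ 1 := by
    refine ⟨min (ε / 3) ((1 - κ') / 3), lt_min (by linarith) (by linarith), ?_, ?_⟩
    · have := min_le_left (ε / 3) ((1 - κ') / 3)
      linarith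
    · have := min_le_right (ε / 3) ((1 - κ') / 3)
      linarith
  obtain ⟨C1, hC1, hs⟩ := ev_small h0 h hδ (by linarith)
  obtain ⟨C2, hC2⟩ := h δ hδ (η / 2) (by positivity)
  obtain ⟨C3, hC3⟩ := hbig δ hδ η hη
  obtain ⟨C4, hC4, hl⟩ := lfi_log 4 (show 0 < 2 * δ by positivity)
    (show (0 : ℝ) < η / 2 / 28 by positivity)
  refine ⟨max (max C1 C2) (max C3 C4), fun X Y hX hY hCY => ?_⟩
  have x1 : C1 ≤ X := (le_max_left _ _).trans ((le_max_left _ _).trans hX)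
  have x2 : C2 ≤ X := (le_max_right _ _).trans ((le_max_left _ _).trans hX)
  have x3 : C3 ≤ X := (le_max_left _ _).trans ((le_max_right _ _).trans hX)
  have x4 : C4 ≤ X := (le_max_right _ _).trans ((le_max_right _ _).trans hX)
  have hX3 : 3 ≤ X := hC1.trans x1
  have hX0 : 0 < X := by linarith
  have hX1 : 1 ≤ X := by linarith
  have hlog : 1 ≤ Real.log X := by linarith [dfa_log hX3]
  have hYn : (0 : ℝ) ≤ Y := Nat.cast_nonneg _
  have hCY3 : C3 * Y ≤ X := by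
    refine le_trans (mul_le_mul_of_nonneg_right ?_ hYn) hCY
    exact (le_max_left _ _).trans (le_max_right _ _)
  rcases le_or_gt (X ^ (κ' + δ)) Y with hcase | hcase
  · exact hC3 X Y x3 hcase hCY3
  have hYX : (Y : ℝ) < X ^ (1 - δ) :=
    lt_of_lt_of_le hcase (Real.rpow_le_rpow_of_exponent_le hX1 (by linarith))
  set Z : ℝ := X ^ (κ + δ) with hZ
  have hZ0 : 0 < Z := Real.rpow_pos_of_pos hX0 _
  have hZ1 : 1 ≤ Z := Real.one_le_rpow hX1 (by linarith)
  have hZY : Z * X ^ (2 * δ) ≤ Y := by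
    refine le_trans ?_ hY
    rw [hZ, ← Real.rpow_add hX0]
    exact Real.rpow_le_rpow_of_exponent_le hX1 (by linarith)
  have hZX : Z ≤ X := by
    calc Z ≤ X ^ (1 : ℝ) := Real.rpow_le_rpow_of_exponent_le hX1 (by linarith)
      _ = X := Real.rpow_one X
  obtain ⟨F, hF⟩ : ∃ F : ℕ → ℝ, F = fun Q => |GX X Q - X * (Real.log Q - CQ Q)| := ⟨_, rfl⟩
  have hF0 : ∀ Q, 0 ≤ F Q := fun Q => by
    rw [hF]
    exact abs_nonneg _
  have hsplit : ∑ Q ∈ Icc 1 Y, F Q ≤ ∑ Q ∈ Icc 1 ⌊Z⌋₊, F Q +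
      ∑ Q ∈ (Icc 1 Y).filter (fun Q : ℕ => Z < Q), F Q := by
    rw [← sum_filter_add_sum_filter_not (Icc 1 Y) (fun Q : ℕ => Z < Q) F, add_comm]
    refine add_le_add ?_ le_rfl
    refine sum_le_sum_of_subset_of_nonneg ?_ fun _ _ _ => hF0 _
    intro Q hQ
    rw [mem_filter, mem_Icc, not_lt] at hQ
    rw [mem_Icc]
    exact ⟨hQ.1.1, Nat.le_floor hQ.2⟩
  have hsecond : ∑ Q ∈ (Icc 1 Y).filter (fun Q : ℕ => Z < Q), F Q ≤ η / 2 * X * Y := by
    have e1 : ∀ Q ∈ (Icc 1 Y).filter (fun Q : ℕ => Z < Q), F Q ≤ η / 2 * X := by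
      intro Q hQ
      rw [mem_filter, mem_Icc] at hQ
      rw [hF]
      refine hC2 X Q x2 hQ.2 (lt_of_le_of_lt ?_ hYX)
      exact_mod_cast hQ.1.2
    refine (sum_le_sum e1).trans ?_
    rw [sum_const, nsmul_eq_mul, mul_comm]
    have e2 : (((Icc 1 Y).filter (fun Q : ℕ => Z < Q)).card : ℝ) ≤ Y := by
      have := card_filter_le (Icc 1 Y) (fun Q : ℕ => Z < Q)
      rw [Nat.card_Icc] at this
      have e3 : ((Icc 1 Y).filter (fun Q : ℕ => Z < Q)).card ≤ Y := by omega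
      exact_mod_cast e3
    exact mul_le_mul_of_nonneg_left e2 (by positivity)
  have hfirst : ∑ Q ∈ Icc 1 ⌊Z⌋₊, F Q ≤ η / 2 * X * Y := by
    have e1 : ∀ Q ∈ Icc 1 ⌊Z⌋₊, F Q ≤ GX X Q + 4 * (X * Real.log X ^ 4) := by
      intro Q hQ
      rw [mem_Icc] at hQ
      have hQ0 : (0 : ℝ) < Q := by exact_mod_cast hQ.1
      have hQZ : (Q : ℝ) ≤ Z := (Nat.le_floor_iff (by linarith)).1 hQ.2
      have e2 : 0 ≤ GX X Q := by
        unfold GX
        exact sum_nonneg fun _ _ => sq_nonneg _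
      have e3 := ev_CQ Q hQ.1
      have e4 : Real.log Q ≤ Real.log X := Real.log_le_log hQ0 (by linarith)
      have e5 : Real.log X ≤ Real.log X ^ 4 := by
        calc Real.log X = Real.log X ^ 1 := (pow_one _).symm
          _ ≤ Real.log X ^ 4 := pow_le_pow_right₀ hlog (by norm_num)
      rw [hF]
      calc |GX X Q - X * (Real.log Q - CQ Q)| ≤ |GX X Q| + |X * (Real.log Q - CQ Q)| :=
            abs_sub _ _
        _ = GX X Q + X * |Real.log Q - CQ Q| := by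
            rw [abs_of_nonneg e2, abs_mul, abs_of_pos hX0]
        _ ≤ GX X Q + X * (4 * Real.log X ^ 4) := by
            gcongr
            linarith
        _ = _ := by ring
    refine (sum_le_sum e1).trans ?_
    rw [sum_add_distrib, sum_const, nsmul_eq_mul, Nat.card_Icc]
    have hN : ((⌊Z⌋₊ + 1 - 1 : ℕ) : ℝ) ≤ Z := by
      rw [Nat.add_sub_cancel]
      exact Nat.floor_le (by linarith)
    have e6 := hs X x1
    rw [← hZ] at e6
    have e7 : ((⌊Z⌋₊ + 1 - 1 : ℕ) : ℝ) * (4 * (X * Real.log X ^ 4)) ≤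
        Z * (4 * (X * Real.log X ^ 4)) := by gcongr
    have e8 := hl X x4
    calc _ ≤ X * Z * (24 * Real.log X ^ 4) + Z * (4 * (X * Real.log X ^ 4)) := add_le_add e6 e7
      _ = 28 * X * Z * Real.log X ^ 4 := by ring
      _ ≤ 28 * X * Z * (η / 2 / 28 * X ^ (2 * δ)) := by gcongr
      _ = η / 2 * X * (Z * X ^ (2 * δ)) := by ring
      _ ≤ η / 2 * X * Y := by gcongr
  rw [hF] at hsplit hfirst hsecond
  calc _ ≤ _ := hsplit
    _ ≤ η / 2 * X * Y + η / 2 * X * Y := add_le_add hfirst hsecond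
    _ = _ := by ring

end Pool.Agent.XS
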